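import Pool.Agent.H43.PS.Targets

set_option autoImplicit false

namespace H43.PS

open Matrix Finset

theorem VEC (hSQR : T_SQR) : T_VEC := by
  classical
  intro υ ι _ _ _ _ G S hG hS
  obtain ⟨L, hL, hLG⟩ := hSQR (υ × ι) G hG
  obtain ⟨R, hR, hRS⟩ := hSQR ι S hS
  have hLs : ∀ a b, L a b = L b a := fun a b => by
    have := hL.isHermitian.apply b a
    simpa using this
  have hRs : ∀ a b, R a b = R b a := fun a b => by
    have := hR.isHermitian.apply b a
    simpa using this
  have hGe : ∀ a b, G a b = ∑ k, L k a * L k b := by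
    intro a b
    rw [← hLG, Matrix.mul_apply]
    exact Finset.sum_congr rfl fun k _ => by rw [hLs a k]
  have hSe : ∀ a b, S a b = ∑ j, R a j * R b j := by
    intro a b
    rw [← hRS, Matrix.mul_apply]
    exact Finset.sum_congr rfl fun k _ => by rw [hRs k b]
  refine ⟨(υ × ι) × ι, inferInstance, fun u m => ∑ x, L m.1 (u, x) * R x m.2, ?_, ?_⟩
  · intro u u'
    rw [Fintype.sum_prod_type]
    have h1 : ∀ k j, (∑ x, L k (u, x) * R x j) * (∑ y, L k (u', y) * R y j) =
        ∑ x, ∑ y, (L k (u, x) * L k (u', y)) * (R y j * R x j) := by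
      intro k j
      rw [Finset.sum_mul_sum]
      refine Finset.sum_congr rfl fun x _ => Finset.sum_congr rfl fun y _ => ?_
      ring
    have h2 : ∀ x y, G (u, x) (u', y) * S y x =
        ∑ k, ∑ j, (L k (u, x) * L k (u', y)) * (R y j * R x j) := by
      intro x y
      rw [hGe, hSe, Finset.sum_mul_sum]
    calc ∑ x, ∑ y, G (u, x) (u', y) * S y x
        = ∑ x, ∑ y, ∑ k, ∑ j, (L k (u, x) * L k (u', y)) * (R y j * R x j) :=
          Finset.sum_congr rfl fun x _ => Finset.sum_congr rfl fun y _ => h2 x y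
      _ = ∑ x, ∑ k, ∑ y, ∑ j, (L k (u, x) * L k (u', y)) * (R y j * R x j) :=
          Finset.sum_congr rfl fun x _ => Finset.sum_comm
      _ = ∑ k, ∑ x, ∑ y, ∑ j, (L k (u, x) * L k (u', y)) * (R y j * R x j) :=
          Finset.sum_comm
      _ = ∑ k, ∑ x, ∑ j, ∑ y, (L k (u, x) * L k (u', y)) * (R y j * R x j) :=
          Finset.sum_congr rfl fun k _ => Finset.sum_congr rfl fun x _ => Finset.sum_comm
      _ = ∑ k, ∑ j, ∑ x, ∑ y, (L k (u, x) * L k (u', y)) * (R y j * R x j) :=
          Finset.sum_congr rfl fun k _ => Finset.sum_comm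
      _ = ∑ k, ∑ j, (∑ x, L k (u, x) * R x j) * (∑ y, L k (u', y) * R y j) :=
          Finset.sum_congr rfl fun k _ => Finset.sum_congr rfl fun j _ => (h1 k j).symm
  · have h1 : ∀ u k j, (∑ x, L k (u, x) * R x j) ^ 2 ≤
        (∑ x, L k (u, x) ^ 2) * ∑ x, R x j ^ 2 := fun u k j =>
      Finset.sum_mul_sq_le_sq_mul_sq _ _ _
    have hTG : G.trace = ∑ u, ∑ k, ∑ x, L k (u, x) ^ 2 := by
      rw [Matrix.trace, Fintype.sum_prod_type]
      refine Finset.sum_congr rfl fun u _ => ?_
      rw [Finset.sum_comm]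
      refine Finset.sum_congr rfl fun x _ => ?_
      rw [Matrix.diag_apply, hGe]
      exact Finset.sum_congr rfl fun k _ => (sq _).symm
    have hTS : S.trace = ∑ j, ∑ x, R x j ^ 2 := by
      rw [Matrix.trace, Finset.sum_comm]
      refine Finset.sum_congr rfl fun x _ => ?_
      rw [Matrix.diag_apply, hSe]
      exact Finset.sum_congr rfl fun k _ => (sq _).symm
    calc ∑ u, ∑ m : (υ × ι) × ι, (∑ x, L m.1 (u, x) * R x m.2) ^ 2
        = ∑ u, ∑ k, ∑ j, (∑ x, L k (u, x) * R x j) ^ 2 := by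
          refine Finset.sum_congr rfl fun u _ => ?_
          rw [Fintype.sum_prod_type]
      _ ≤ ∑ u, ∑ k, ∑ j, (∑ x, L k (u, x) ^ 2) * ∑ x, R x j ^ 2 :=
          Finset.sum_le_sum fun u _ => Finset.sum_le_sum fun k _ =>
            Finset.sum_le_sum fun j _ => h1 u k j
      _ = G.trace * S.trace := by
          rw [hTG, hTS, Finset.sum_mul]
          refine Finset.sum_congr rfl fun u _ => ?_
          rw [Finset.sum_mul]
          refine Finset.sum_congr rfl fun k _ => ?_
          rw [Finset.mul_sum]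

end H43.PS
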