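import Pool.Agent.H43.PS.Targets

set_option autoImplicit false

namespace H43.PS

open Matrix Finset

theorem CLW : T_CLW := by
  classical
  intro Θ _ _ N h σ w
  refine ⟨fun T z => ∑ u ∈ univ.filter
    (fun u : Fin N → Option Θ => univ.filter (fun i => (u i).isSome = true) = T),
    cz σ z u * w u, ?_, ?_⟩
  · intro T z z' hz
    refine Finset.sum_congr rfl fun u hu => ?_
    have hu' := (mem_filter.1 hu).2
    have h1 : cz σ z u = cz σ z' u := by
      unfold cz
      refine Finset.prod_congr rfl fun i _ => ?_
      cases hui : u i with
      | none => rfl
      | some θ =>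
        have hi : i ∈ T := by
          rw [← hu']
          simp [hui]
        rw [hz i hi]
    rw [h1]
  · intro z
    have h1 := Finset.sum_fiberwise_of_maps_to
      (s := univ.filter (fun u : Fin N → Option Θ => dg u ≤ h))
      (t := univ.filter (fun T : Finset (Fin N) => T.card ≤ h))
      (g := fun u => univ.filter (fun i => (u i).isSome = true))
      (fun u hu => by
        simp only [mem_filter, mem_univ, true_and] at hu ⊢
        exact hu) (fun u => cz σ z u * w u)
    change ∑ u ∈ univ.filter (fun u : Fin N → Option Θ => dg u ≤ h), cz σ z u * w u = _
    rw [← h1]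
    refine Finset.sum_congr rfl fun T hT => ?_
    have hT' := (mem_filter.1 hT).2
    refine Finset.sum_congr ?_ fun _ _ => rfl
    ext u
    simp only [mem_filter, mem_univ, true_and]
    constructor
    · intro hu
      exact hu.2
    · intro hu
      refine ⟨?_, hu⟩
      unfold dg
      rw [hu]
      exact hT'

end H43.PS
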